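import Pool.Agent.Lib.helper32.AugZarProof

set_option autoImplicit false

namespace Pool.Agent.Results.MP_10302a_co.Q2

open Pool.Agent.Lib.helper32.AugZar

theorem result :
    ¬ ∃ C : ℝ, ∀ m n : ℕ, 2 ≤ m → 2 ≤ n →
      (z3L m n : ℝ) ≤ C * (m * Real.sqrt n + n) :=
  unbounded z3L z3L_lower

end Pool.Agent.Results.MP_10302a_co.Q2
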